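import Mathlib
import Pool.Agent.Y156.Z.Main
import Pool.Agent.Y156.P.Good
import Pool.Agent.Y156.P.Crit

/-!
# Orders of zeta functions and ranks of higher Chow groups of the product of an abelian variety and any
scheme over a finite field

Let `p` be a prime number, `q = p ^ a`, let `K i` (`i` in a finite set) be CM fields of degrees
`2 g i` and `π i` Weil numbers for `q` in `K i`, each of one of the following two kinds (`IsGoodWeil`).

* Prime dimension (`IsPrimeWeil`): `g i` is `1` or a prime number, each power `(π i) ^ n`, `n ≥ 1`,
  generates `K i`, and if `g i` is an odd prime number and `K i` has a quadratic subfield, the slopes
  of `π i` have odd denominators (`OddSlopes`), for instance `π i` is ordinary. By Honda and Tate they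
  correspond to the geometrically simple abelian varieties of dimension `g i` with commutative
  geometric endomorphism ring which are not supersingular.
* Irreducible fields (`IsIrreducibleWeil`): `g i` is arbitrary; the rational functions on the set of
  the complex embeddings of `K i` that change their sign under complex conjugation form an
  irreducible representation of the group of automorphisms of `ℂ` (`OddIrreducible`); `π i` generates
  `K i` and is not supersingular. By the fourth part of the theorem (`IrreducibilityCriteria`) this is
  so if `K i` has a flip (`HasFlip`): an automorphism of `ℂ` that exchanges two complex conjugate
  embeddings of `K i` and fixes all others, so in particular if the Galois group has the largest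
  possible order `2 ^ g g!`, the generic case; and if `g i` is an odd prime number and `K i` has no
  quadratic subfield.

The fields `K i` are pairwise independent (`PairwiseIndep`): for `i ≠ k` and all complex embeddings
`φ` of `K i` and `ψ` of `K k` some automorphism of `ℂ` is the identity on `φ (K i)` and the complex
conjugation on `ψ (K k)`. This is no condition if there is only one field. By the second part of the
theorem (`FieldsIndependent`) fields of pairwise different degrees are pairwise independent if all of
them, except perhaps the one of smallest degree, have irreducible odd parts. Let `f i` be monic
polynomials whose complex roots are conjugates of `π i` (`IsPolyOf`), for instance powers of the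
characteristic polynomials of Frobenius.

Let `A` be an abelian variety over the field with `Q = q ^ s` elements which is isogenous to a product
of powers of abelian varieties coming from the field with `q` elements, with characteristic
polynomials `f i`.

Let `U` be **any** scheme of finite type over the field with `Q` elements, singular or not, proper or
not, of dimension at most `d`, whose Frobenius eigenvalues `ρ` are independent of the fields `K i`
(`Independent`): for each complex embedding `ψ` of `K i` there is an automorphism `τ` of `ℂ` which fixes
a power of `ρ` and is the complex conjugation on `ψ (K i)`. This is so if the eigenvalues have powers
in a number field which is linearly disjoint from the normal closures of the `K i`, or powers in a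
totally real field (take for `τ` the complex conjugation), and by the third part of the theorem
(`NumbersIndependent`) for **all** nonzero algebraic numbers `ρ` of degree less than `2 g i` for all
`i`, if the fields `K i` have irreducible odd parts, for instance if the Betti numbers of `U` are less
than `2 g i` for all `i`.

The first part of the theorem (`ZetaTimes`). Consider the formula of Soule in Q2 at the integer `n`
(`Formula`): the groups `CH_n(X, i) ⊗ ℚ` are finite dimensional, almost all of them vanish, and

`- ord_{s = n} ζ_X (s) = ∑ i, (-1) ^ i * rank CH_n(X, i)`.

(1) If it holds for `U` at `n - k` for `0 ≤ k ≤ dim A`, then it holds for `A × U` at `n`. (2) If it holds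
for `A × U` at all integers then it holds for `U` at all integers. So **Q2 for `A × U` is equivalent to
Q2 for `U`**. For instance it holds for `A` (`U` a point), and for all products of `A` with smooth
curves, with cellular varieties, with varieties for which the conjectures of Tate and Beilinson are
known, if their eigenvalues are independent.

The properties that are used are collected in `IsAbelian` (for `A`: the Chow ring, the correspondences
and the cohomology with complex coefficients, by an isomorphism of `ℂ` and the algebraic closure of
`ℚ_ℓ`; with Kimura nilpotence and the theorem of Tate on divisors), and in `IsRel` for the higher Chow
groups: products and push-forwards with classes on `A`, operation of the correspondences from `A` to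
`A` and of the Frobenius endomorphism of `U`. The groups are graded by codimensions:
`CH_n(U, i) = N (2 (d - n) - i) (d - n)` (`chow`), `CH_n(A × U, i) = M (2 (g + d - n) - i) (g + d - n)`
(`chowProduct`), `g = dim A`; the Frobenius endomorphism `frobM` of `U` is `Q ^ d` times the inverse of
the push-forward. `IsPure` says that the push-forward by the Frobenius endomorphism of `A × U` is `Q ^ n`
on `CH_n(A × U, i)`, and `HasIndependent` that the Frobenius endomorphism of `U` satisfies on the
groups of `A × U` a polynomial with independent roots; if homologically trivial correspondences are
nilpotent this is a condition on the eigenvalues on the cohomology. The zeta function `zeta Q m` is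
given by the alternating sums `m ρ` of the multiplicities of the eigenvalues `ρ` of Frobenius on the
cohomology with compact supports (Grothendieck), and those of `A × U` are given by the Kunneth formula
(`IsProductOf`). The numbers `ρ` with `m ρ ≠ 0` are independent (`SupportIndependent`).

The result `HypergraphRanks` (helper111) reduces Q2 for all schemes to one family of cubics. Here Q2 is
settled for new products. Known is that Q2 holds for smooth projective varieties over finite fields for
which the conjectures of Tate and Beilinson and semisimplicity hold (Soule, Geisser, Kahn).

The proof. (1) There are dual systems of products `D t`, `E t` of divisors on `A`, of codimensions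
`c t` and `g - c t`, such that `∑ t, E t × D t` is the projector to the part of the cohomology of `A`
generated by divisors. If `α` is an eigenvalue of Frobenius on a complement then `α ρ` is not a power of
`Q` for all independent `ρ`. Suppose that the product of `ρ` and of some eigenvalues `φ (π i)`, no two of them complex conjugate, is
a power of `q`, up to a root of unity. By the argument of `AllCMTypesTimes` (helper1, whose library
`Y1.CT` is used here) the independence gives such a relation for one field `K = K i` alone. Let
`w (φ)` be the slope of `φ (π)` minus `1 / 2`, an odd function on the complex embeddings of `K`: it
changes the sign under complex conjugation. Then all `w τ` are orthogonal to a nonzero space `S` of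
odd rational functions which is stable under the automorphisms `τ` of `ℂ`. If the space of all odd
functions is irreducible it is `S`, and `w = 0`, that is, `π` is supersingular. Let now `g` be an odd
prime number. Let `σ` be an element of order `g` of the image of the group of automorphisms in the
permutations of the embeddings (Cauchy). It has two orbits `C` and `c C`, exchanged by complex
conjugation `c`. For `u ∈ S` the cyclic correlations of the restrictions of `w τ` and `u` to `C` are
zero. Since the cyclotomic polynomial of order `g` is irreducible over `ℚ` one of the two restrictions
is constant. If not all `w τ` are constant on `C`, all `u ∈ S` are; then `K` has a quadratic subfield,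
and the sum of `w` over the `g` elements of `C` is zero, which is impossible for odd denominators. If
all `w τ` are constant on `C` then `w (τ φ) = w (τ φ')` for all `τ` and two embeddings `φ ≠ φ'`, and by
Kronecker's theorem the quotient of `φ (π)` and `φ' (π)` is a root of unity, so that some power of `π`
does not generate `K`.
(2) By Kimura nilpotence `CH_n(A × U, i)` is the direct sum of the products of `D t` with the groups
`CH_{n - (g - c t)}(U, i)`, with rational coefficients. (3) In the Kunneth formula the multiplicity of
`Q ^ n` for `A × U` is the sum over `α ρ = Q ^ n` of the products of the multiplicities of `α` and `ρ`;
then `α` is a power `Q ^ l` whose multiplicity is the number of the `t` with `g - c t = l`. So both sides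
of the formula for `A × U` at `n` are the sums over `t` of the sides for `U` at `n - (g - c t)`. The
converse follows by descending induction, starting from `n > d`, where both sides are zero.
-/

set_option autoImplicit false

namespace Pool.Agent.Results.MP_666bea_ag.AbelianTimesScheme

open NumberField Polynomial Pool.Agent.H977R3.CM Pool.Agent.Y1.CT Pool.Agent.Y156.P
  Pool.Agent.Y156.Z

/-- **The formula of Soule for the orders of the zeta function and the ranks of the higher Chow
groups holds for `A × U` if and only if it holds for `U`, for all products `A` of powers of abelian
varieties of prime dimension or with irreducible fields of Frobenius, and all independent schemes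
`U`.** -/
theorem result :
    (∀ (p : ℕ) [Fact p.Prime] (a : ℕ), 0 < a → ∀ (I : Type) [Fintype I] (K : I → Type)
      [∀ i, Field (K i)] [∀ i, NumberField (K i)] [∀ i, IsCMField (K i)], PairwiseIndep K →
      ∀ (π : ∀ i, K i) (f : I → ℤ[X]), (∀ i, IsGoodWeil p a (π i)) →
      (∀ i, IsPolyOf (π i) (f i)) → ZetaTimes K (p ^ a) f) ∧
    FieldsIndependent ∧ NumbersIndependent ∧ IrreducibilityCriteria :=
  ⟨fun _ _ _ ha _ _ _ _ _ _ hK _ _ hπ hf =>
    zetaTimes (Nat.one_lt_pow ha.ne' (Fact.out : Nat.Prime _).one_lt) (noRel_good ha hK hπ hf),
    fieldsIndependent_holds, numbersIndependent_holds, irreducibilityCriteria_hold⟩

end Pool.Agent.Results.MP_666bea_ag.AbelianTimesScheme
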