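import Pool.Agent.Y111.HR.Main
import Pool.Agent.Y116.UV.ZetaH

/-!
# Zeta orders and ranks of higher Chow groups: reduction to the cubic hypersurfaces of hypergraphs

For a finite set `H` of triples (a tripartite hypergraph) let `tripS ℤ H` be the affine cubic hypersurface
`∑_{(i, j, k) ∈ H} x_i y_j z_k = 1` over `ℤ`; it is smooth over `ℤ`.

The conjecture of Bloch and Soulé (`Formula`: meromorphic continuation of the zeta function, finiteness
of the ranks of all higher Chow groups, and the formula for the orders of the zeta function at all
integers as Euler characteristics of these ranks) is true for all schemes of finite type over `ℤ` if and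
only if it is true for these hypersurfaces.

The zeta functions are the actual ones. The higher Chow groups are given by their known properties
(`IsHigherChow`: localisation, affine bundles, `X × 𝔾_m`, dimension, and the formula for `Spec ℤ`).
If `sep` is true, all this is about separated schemes of finite type.
-/

namespace Pool.Agent.Results.MP_666bea_ag.HypergraphRanks

open CategoryTheory AlgebraicGeometry Pool.Agent.Y116.UV Pool.Agent.Y111.HR

/-- The formula of Bloch and Soulé for the orders of the zeta functions at all integers is true for all
(separated, if `sep`) schemes of finite type over `ℤ` if and only if it is true for the smooth cubic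
hypersurfaces `∑_{(i, j, k) ∈ H} x_i y_j z_k = 1`. -/
theorem result (sep : Prop) (T : HigherChow) (hT : IsHigherChow sep T) :
    ((∀ X : Sch ℤ, FT sep X → Formula T X) ↔
      ∀ (a b c : ℕ) (H : Finset (Fin a × Fin b × Fin c)), Formula T (tripS ℤ H)) ∧
    ∀ (a b c : ℕ) (H : Finset (Fin a × Fin b × Fin c)), Algebra.Smooth ℤ (Trip ℤ H) :=
  ⟨⟨fun h _ _ _ H => h (tripS ℤ H) (ft_aff sep), fun h X hX => formula_all hT h X hX⟩,
    fun _ _ _ H => trip_smooth H⟩

end Pool.Agent.Results.MP_666bea_ag.HypergraphRanks
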