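import Pool.Agent.Y116.UV.ZetaDefs
import Pool.Agent.Y116.UV.ZetaH

/-!
# The zeta functions of the schemes of finite type over `ℤ` and the cubic hypersurfaces of hypergraphs

For a finite set `H` of triples (a tripartite hypergraph) let `Spec (Trip ℤ H)` be the affine cubic
hypersurface `∑_{(i, j, k) ∈ H} x_i y_j z_k = 1` over `ℤ`; it is smooth over `ℤ`. The zeta function of
every scheme of finite type over `ℤ` - singular or not, separated or not - has a meromorphic
continuation to `ℂ` if and only if this is true for these hypersurfaces.

This is about the zeta functions themselves (Euler products over all closed points); nothing is assumed.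
-/

namespace Pool.Agent.Results.MP_666bea_ag.HypergraphZeta

open CategoryTheory AlgebraicGeometry Pool.Agent.Y116.UV

/-- The zeta functions of all schemes of finite type over `ℤ` have a meromorphic continuation to `ℂ` if
and only if the zeta functions of the smooth cubic hypersurfaces `∑_{(i, j, k) ∈ H} x_i y_j z_k = 1` have
one. -/
theorem result :
    ((∀ (X : Scheme.{0}) (f : X ⟶ Spec (CommRingCat.of ℤ)),
        LocallyOfFiniteType f → QuasiCompact f → HasMeroZeta X) ↔
      ∀ (a b c : ℕ) (H : Finset (Fin a × Fin b × Fin c)),
        HasMeroZeta (Spec (CommRingCat.of (Trip ℤ H)))) ∧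
    ∀ (a b c : ℕ) (H : Finset (Fin a × Fin b × Fin c)), Algebra.Smooth ℤ (Trip ℤ H) := by
  refine ⟨⟨fun h a b c H => ?_, fun h X f hf hf' => ?_⟩, fun a b c H => trip_smooth H⟩
  · have h1 : FT False (tripS ℤ H) := ft_aff False
    exact h _ (tripS ℤ H).hom h1.locallyOfFiniteType h1.quasiCompact
  · exact zm_all (fun a b c H => h a b c H) (Over.mk f) ⟨hf, hf', False.elim⟩

end Pool.Agent.Results.MP_666bea_ag.HypergraphZeta
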