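import Pool.Agent.Y456.LG.ZetaP

/-!
# Zeta functions of arithmetic schemes and sparse linear sections of `GL_m`

Let `M` be a square matrix of polynomials over `ℤ` each of whose entries is `0`, `1` or a variable and in
which each of the `d` variables occurs (`IsPattern M`), and suppose that there are at most three nonzero
entries in every row and in every column (`Thin M`). The points `x` of the affine space `𝔸^d` over `ℤ` such
that `M(x)` is invertible form the scheme `secGL M`, a smooth affine linear section of `GL_m`.

1. The zeta function of every scheme `X` of finite type over `ℤ` is a quotient of two finite products of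
   zeta functions of such sections. If `X` is a closed subscheme of `𝔸^d`, sections in `d` variables suffice.
   Nothing is assumed; the zeta functions are the Euler products themselves.
2. So Q1 (in the words of `S00215`) is true if and only if it is true for these sections. For each `d`, the
   meromorphic continuation of the zeta functions of all closed subschemes of `𝔸^d` is equivalent to the
   meromorphic continuation of the zeta functions of the sparse sections in `d` variables.
3. For each `X` there are finitely many sparse sections such that, for each integer `n`, the formula of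
   Bloch and Soulé (Q2) at `s = n` for these sections implies the formula at `s = n` for `X`. Here the higher
   Chow groups are given by known properties (`IsChow`: localisation and homotopy invariance).
-/

namespace Pool.Agent.Results.MP_666bea_ag.SparseLinearSections

open CategoryTheory AlgebraicGeometry MvPolynomial Pool.Agent.Y116.UV Pool.Agent.Y111.HR
  Pool.Agent.Y456.LG

/-- Every zeta function of a scheme of finite type over `ℤ` is a quotient of finite products of zeta
functions of smooth affine linear sections of `GL_m` given by patterns of zeros, ones and variables with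
at most three nonzero entries in every row and column; these sections decide the conjectures on
meromorphic continuation and on the orders at integers. -/
theorem result :
    (∀ X : Sch ℤ, FT False X → ∃ L L' : Mats ℤ,
      (∀ x ∈ L, IsThin x) ∧ (∀ x ∈ L', IsThin x) ∧ IsQuotient L L' X) ∧
    (∀ (d : ℕ) (A : Type) [CommRing A] [Algebra ℤ A] (a : Fin d → A),
      Function.Surjective (MvPolynomial.aeval (R := ℤ) a) → ∃ L L' : Mats ℤ,
        (∀ x ∈ L, x.1 = d ∧ IsThin x) ∧ (∀ x ∈ L', x.1 = d ∧ IsThin x) ∧
          IsQuotient L L' (aff ℤ A)) ∧
    ((∀ (X : Scheme.{0}) (f : X ⟶ Spec (CommRingCat.of ℤ)),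
        LocallyOfFiniteType f → QuasiCompact f → HasMeroZeta X) ↔
      ∀ (d m : ℕ) (M : Matrix (Fin m) (Fin m) (MvPolynomial (Fin d) ℤ)), IsPattern M → Thin M →
        HasMeroZeta (secGL M).left) ∧
    (∀ d : ℕ, (∀ (A : Type) [CommRing A] [Algebra ℤ A] (a : Fin d → A),
        Function.Surjective (MvPolynomial.aeval (R := ℤ) a) → HasMeroZeta (Spec (.of A))) ↔
      ∀ (m : ℕ) (M : Matrix (Fin m) (Fin m) (MvPolynomial (Fin d) ℤ)), IsPattern M → Thin M →
        HasMeroZeta (secGL M).left) ∧
    ∀ (sep : Prop) (X : Sch ℤ), FT sep X → ∃ L : Mats ℤ, (∀ x ∈ L, IsThin x) ∧
      ∀ T : HigherChow, IsChow sep T → ∀ n : ℤ,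
        (∀ x ∈ L, FormulaAt T n (secGL x.2.2)) → FormulaAt T n X := by
  refine ⟨quot_all, fun d A _ _ a ha => quot_gen A _ ha, ⟨fun h d m M _ _ => ?_, fun h X f hf hf' => ?_⟩,
    mero_gen, formula_local⟩
  · have h1 : FT False (secGL M) := ft_sec M
    exact h _ (secGL M).hom h1.locallyOfFiniteType h1.quasiCompact
  · exact mero_all h (Over.mk f) ⟨hf, hf', False.elim⟩

end Pool.Agent.Results.MP_666bea_ag.SparseLinearSections
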